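import Pool.Agent.Helper79.AL.St1

/-!
# Project AL (MP_2b6189_al), module G2T

An invertible object of twist `1` generates a Tannakian subcategory.
-/

set_option autoImplicit false

namespace Pool.Agent.Helper70.AL

open Matrix ComplexConjugate Pool.Agent.Helper94.YG
open Pool.Agent.Helper94.YF hiding StORB
open Pool.Agent.Helper89.OS Pool.Agent.Helper89.OC Pool.Agent.Helper79.AL

/-- `Sf x x = 1` for an invertible object of twist `1`. -/
lemma Sf_self {I : Type} [Fintype I] [DecidableEq I] (Z : CentreData I) (B : GLB Z) (C : GLC Z)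
    (x : I) (hd : Z.d x = 1) (hds : Z.d (Z.st x) = 1) (ht : Z.th x = 1) : Sf Z x x = 1 := by
  have h1 : ∑ l, Z.N x (Z.st x) l * Z.d l = 1 := by
    have h := B.dim x (Z.st x)
    rw [hd, hds] at h
    simpa using h.symm
  have ho : Z.N x (Z.st x) Z.o = 1 := by simpa using B.N_o x x
  have h2 : ∀ l, l ≠ Z.o → Z.N x (Z.st x) l = 0 := by
    intro l hl
    rw [← Finset.add_sum_erase _ _ (Finset.mem_univ Z.o), ho, Z.d_o] at h1
    have h3 : ∑ l ∈ Finset.univ.erase Z.o, Z.N x (Z.st x) l * Z.d l = 0 := by omega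
    have h4 := (Finset.sum_eq_zero_iff.1 h3) l (Finset.mem_erase.2 ⟨hl, Finset.mem_univ l⟩)
    rcases Nat.mul_eq_zero.1 h4 with h | h
    · exact h
    · exact absurd h (Z.d_pos l).ne'
  have h5 := C.twist x x
  rw [ht, mul_one, mul_one, Finset.sum_eq_single Z.o] at h5
  · rw [h5, ho, Z.th_o, Z.d_o]
    norm_num
  · intro l _ hl
    rw [h2 l hl]
    simp
  · intro h
    exact absurd (Finset.mem_univ _) h

/-- **AL MODULE G2T.** -/
theorem hG2T : StG2T := by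
  intro hA hB hC I _ _ Z hodd hg
  obtain ⟨x, hx, hd, ht⟩ := hg
  have A := hA I Z
  have B := hB I Z
  have C := hC hA hB I Z
  obtain ⟨_, _, hdst, _, _, _⟩ := Pool.Agent.Helper88.YF.hDUA I Z.toCentreRep
  have hxx : Sf Z x x = 1 := Sf_self Z B C x hd (by rw [hdst, hd]) ht
  have hc : Cchi Z x x = Z.d x := by
    have h := A.Sf_chi x x
    rw [hxx, hd] at h
    rw [hd]
    simpa using h.symm
  have hconj : ∀ (i j : I), Cchi Z i j = Z.d j → Cchi Z i (Z.st j) = Z.d (Z.st j) := by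
    intro i j h
    rw [A.chi_st, h, hdst]
    simp
  refine ⟨fun j => Cchi Z x j = Z.d j ∧ ∀ i, Cchi Z x i = Z.d i → Cchi Z i j = Z.d j,
    ⟨?_, ?_, ?_, ?_, ?_, ?_⟩⟩
  · refine ⟨?_, fun i _ => ?_⟩ <;> rw [A.chi_o, Z.d_o] <;> simp
  · refine ⟨x, ⟨hc, fun i hi => ?_⟩, hx⟩
    have h1 := A.Sf_chi x i
    have h2 := A.Sf_chi i x
    rw [A.Sf_symm i x, h1, hi, hd] at h2
    have h3 : (Z.d i : ℂ) ≠ 0 := by
      exact_mod_cast (Z.d_pos i).ne'
    rw [hd]
    have h4 : (Z.d i : ℂ) * Cchi Z i x = (Z.d i : ℂ) * ((1 : ℕ) : ℂ) := by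
      rw [← h2]
      push_cast
      ring
    exact mul_left_cancel₀ h3 h4
  · rintro j ⟨h1, h2⟩
    exact ⟨hconj x j h1, fun i hi => hconj i j (h2 i hi)⟩
  · rintro j k l ⟨h1, h2⟩ ⟨h3, h4⟩ hN
    exact ⟨A.clos x j k l h1 h3 hN, fun i hi => A.clos i j k l (h2 i hi) (h4 i hi) hN⟩
  · rintro j ⟨h1, h2⟩
    refine C.self hodd j ?_
    rw [A.Sf_chi, h2 j h1]
    ring
  · rintro j k ⟨h1, _⟩ ⟨_, h4⟩
    rw [A.Sf_chi, h4 j h1]

end Pool.Agent.Helper70.AL
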